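import Pool.Agent.Helper72.AP.Defs

/-! Block B3 of `Pool/Agent/Helper72/AP`: bounded differences inequality for a law of the noise which is invariant under resampling of the coordinates in a finite set `S`. Proof: average the coordinates of `S` one after the other; each step costs the factor `exp (r² c_i² / 2)` in
the exponential moment (Hoeffding's lemma). -/

set_option autoImplicit false
open MeasureTheory Real Set
open scoped ENNReal

namespace Pool.Agent.Helper18.AN

open Pool.Agent.Helper95.PV
open Pool.Agent.Helper72.AP (Rs)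
open Pool.Agent.Helper18.FD (uu)

/-- the noise with the coordinates in `S` replaced -/
def mxS (S : Finset Ix) (ω η : Om) : Om := fun i => if i ∈ S then η i else ω i

theorem hoeff {c : ℝ} (hc : 0 ≤ c) {X : ℝ → ℝ} (hX : Measurable X) (hb : ∀ u, |X u| ≤ c)
    (h0 : ∫ u, X u ∂uu = 0) (r : ℝ) : ∫ u, Real.exp (r * X u) ∂uu ≤ Real.exp (r ^ 2 * c ^ 2 / 2) := by
  have h1 := ProbabilityTheory.hasSubgaussianMGF_of_mem_Icc_of_integral_eq_zero (μ := uu) (a := -c) (b := c)
    hX.aemeasurable (Filter.Eventually.of_forall fun u => abs_le.1 (hb u)) h0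
  have h2 := h1.mgf_le r
  unfold ProbabilityTheory.mgf at h2
  refine h2.trans (le_of_eq ?_)
  congr 1
  have h3 : (((‖c - -c‖₊ / 2) ^ 2 : NNReal) : ℝ) = c ^ 2 := by
    push_cast
    rw [Real.norm_eq_abs, abs_of_nonneg (by linarith)]
    ring
  rw [h3]
  ring

theorem meas_mxS (S : Finset Ix) : Measurable fun q : Om × Om => mxS S q.1 q.2 := by
  rw [measurable_pi_iff]
  intro i
  unfold mxS
  by_cases h : i ∈ S
  · simp only [h, if_true]
    exact (measurable_pi_apply i).comp measurable_snd
  · simp only [h, if_false]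
    exact (measurable_pi_apply i).comp measurable_fst

private theorem int_bd {α : Type*} [MeasurableSpace α] {μ : Measure α} [IsProbabilityMeasure μ] {g : α → ℝ}
    (hg : Measurable g) {K : ℝ} (hb : ∀ x, |g x| ≤ K) : Integrable g μ :=
  Integrable.of_bound hg.aestronglyMeasurable K (Filter.Eventually.of_forall hb)

private theorem int_exp {α : Type*} [MeasurableSpace α] {μ : Measure α} [IsProbabilityMeasure μ] {g : α → ℝ}
    (hg : Measurable g) {K : ℝ} (hb : ∀ x, |g x| ≤ K) (r : ℝ) : Integrable (fun x => Real.exp (r * g x)) μ := by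
  refine int_bd (K := Real.exp (|r| * K)) (Real.measurable_exp.comp (hg.const_mul r)) fun x => ?_
  rw [abs_of_pos (Real.exp_pos _)]
  apply Real.exp_le_exp.2
  calc r * g x ≤ |r * g x| := le_abs_self _
    _ = |r| * |g x| := abs_mul _ _
    _ ≤ |r| * K := mul_le_mul_of_nonneg_left (hb x) (abs_nonneg _)

private theorem abs_int_le {α : Type*} [MeasurableSpace α] {μ : Measure α} [IsProbabilityMeasure μ] {g : α → ℝ}
    {K : ℝ} (hb : ∀ x, |g x| ≤ K) : |∫ x, g x ∂μ| ≤ K := by
  have h := norm_integral_le_of_norm_le_const (μ := μ) (f := g) (C := K) (Filter.Eventually.of_forall hb)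
  rw [probReal_univ, mul_one] at h
  exact h

/-- averaging one coordinate -/
theorem stepM {L : Measure Om} (hL : IsProbabilityMeasure L) {i : Ix} (hR : Rs L i) {g : Om → ℝ}
    (hg : Measurable g) {K : ℝ} (hb : ∀ ω, |g ω| ≤ K) {c : ℝ} (hc : ∀ ω u, |g (Function.update ω i u) - g ω| ≤ c) (r : ℝ) :
    ∫ ω, Real.exp (r * g ω) ∂L ≤
      Real.exp (r ^ 2 * c ^ 2 / 2) * ∫ ω, Real.exp (r * ∫ u, g (Function.update ω i u) ∂uu) ∂L := by
  have hc0 : 0 ≤ c := (abs_nonneg _).trans (hc 0 0)
  have hm : Measurable fun q : Om × ℝ => g (Function.update q.1 i q.2) :=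
    hg.comp (Pool.Agent.Helper18.PV.measurable_upd i)
  have hmω : ∀ ω : Om, Measurable fun u : ℝ => g (Function.update ω i u) := fun ω =>
    hm.comp (measurable_const.prodMk measurable_id)
  have hT : Measurable fun ω : Om => ∫ u, g (Function.update ω i u) ∂uu :=
    (hm.stronglyMeasurable.integral_prod_right' (ν := uu)).measurable
  have hTb : ∀ ω : Om, |∫ u, g (Function.update ω i u) ∂uu| ≤ K := fun ω => abs_int_le fun u => hb _
  have e1 : ∫ ω, Real.exp (r * g ω) ∂L = ∫ ω, ∫ u, Real.exp (r * g (Function.update ω i u)) ∂uu ∂L := by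
    have h1 : ∫ ω, Real.exp (r * g ω) ∂L = ∫ q, Real.exp (r * g (Function.update q.1 i q.2)) ∂(L.prod uu) := by
      have h2 := integral_map (μ := L.prod uu) (φ := fun q : Om × ℝ => Function.update q.1 i q.2)
        hR.measurable.aemeasurable (f := fun ω => Real.exp (r * g ω))
        (Real.measurable_exp.comp (hg.const_mul r)).aestronglyMeasurable
      rw [hR.map_eq] at h2
      exact h2
    rw [h1, integral_prod _ (int_exp (μ := L.prod uu) hm (fun q => hb _) r)]
  rw [e1, ← integral_const_mul]
  have hexp : Measurable fun q : Om × ℝ => Real.exp (r * g (Function.update q.1 i q.2)) :=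
    Real.measurable_exp.comp (hm.const_mul r)
  have hI1 : Integrable (fun ω : Om => ∫ u, Real.exp (r * g (Function.update ω i u)) ∂uu) L :=
    (int_exp (μ := L.prod uu) hm (fun q => hb _) r).integral_prod_left
  refine integral_mono hI1 ((int_exp hT hTb r).const_mul _) fun ω => ?_
  obtain ⟨m, hmd⟩ : ∃ m : ℝ, m = ∫ u, g (Function.update ω i u) ∂uu := ⟨_, rfl⟩
  show ∫ u, Real.exp (r * g (Function.update ω i u)) ∂uu ≤
    Real.exp (r ^ 2 * c ^ 2 / 2) * Real.exp (r * ∫ u, g (Function.update ω i u) ∂uu)
  rw [← hmd]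
  have hX : ∀ u, |g (Function.update ω i u) - m| ≤ c := by
    intro u
    have h3 : g (Function.update ω i u) - m =
        ∫ u', (g (Function.update ω i u) - g (Function.update ω i u')) ∂uu := by
      rw [integral_sub (integrable_const _) (int_bd (hmω ω) fun u => hb _), integral_const, probReal_univ, one_smul,
        ← hmd]
    rw [h3]
    refine abs_int_le fun u' => ?_
    have h4 := hc (Function.update ω i u') u
    rw [Function.update_idem] at h4
    exact h4
  have h0 : ∫ u, (g (Function.update ω i u) - m) ∂uu = 0 := by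
    rw [integral_sub (int_bd (hmω ω) fun u => hb _) (integrable_const _), integral_const, probReal_univ, one_smul,
      ← hmd, sub_self]
  have h5 := hoeff hc0 ((hmω ω).sub_const m) hX h0 r
  have h6 : ∫ u, Real.exp (r * g (Function.update ω i u)) ∂uu =
      Real.exp (r * m) * ∫ u, Real.exp (r * (g (Function.update ω i u) - m)) ∂uu := by
    rw [← integral_const_mul]
    refine integral_congr_ae (Filter.Eventually.of_forall fun u => ?_)
    show Real.exp (r * g (Function.update ω i u)) = Real.exp (r * m) * Real.exp (r * (g (Function.update ω i u) - m))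
    rw [← Real.exp_add]
    congr 1
    ring
  rw [h6, mul_comm]
  exact mul_le_mul_of_nonneg_right h5 (Real.exp_pos _).le

/-- the average over the coordinates in `S` -/
noncomputable def FS (f : Om → ℝ) (S : Finset Ix) (ω : Om) : ℝ := ∫ η : Om, f (mxS S ω η) ∂PP

theorem FS_empty (f : Om → ℝ) (ω : Om) : FS f ∅ ω = f ω := by
  have h : ∀ η : Om, mxS ∅ ω η = ω := by
    intro η
    funext i
    unfold mxS
    simp
  unfold FS
  simp only [h]
  rw [integral_const, probReal_univ, one_smul]

theorem FS_meas {f : Om → ℝ} (hf : Measurable f) (S : Finset Ix) : Measurable (FS f S) :=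
  ((hf.comp (meas_mxS S)).stronglyMeasurable.integral_prod_right' (ν := PP)).measurable

theorem FS_bd {f : Om → ℝ} {K : ℝ} (hb : ∀ ω, |f ω| ≤ K) (S : Finset Ix) (ω : Om) : |FS f S ω| ≤ K :=
  abs_int_le fun η => hb _

theorem mxS_update {S : Finset Ix} {i : Ix} (hi : i ∉ S) (ω η : Om) (u : ℝ) :
    mxS S (Function.update ω i u) η = Function.update (mxS S ω η) i u := by
  funext j
  by_cases hj : j = i
  · subst hj
    unfold mxS
    rw [if_neg hi, Function.update_self, Function.update_self]
  · rw [Function.update_of_ne hj]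
    unfold mxS
    rw [Function.update_of_ne hj]

theorem mxS_insert {S : Finset Ix} {i : Ix} (hi : i ∉ S) (ω η : Om) (u : ℝ) :
    mxS (insert i S) ω (Function.update η i u) = mxS S (Function.update ω i u) η := by
  funext j
  by_cases hj : j = i
  · subst hj
    unfold mxS
    rw [if_neg hi, Function.update_self, Function.update_self, if_pos (Finset.mem_insert_self _ _)]
  · unfold mxS
    rw [Function.update_of_ne hj, Function.update_of_ne hj]
    by_cases hjS : j ∈ S
    · rw [if_pos hjS, if_pos (Finset.mem_insert_of_mem hjS)]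
    · rw [if_neg hjS, if_neg]
      rw [Finset.mem_insert, not_or]
      exact ⟨hj, hjS⟩

theorem FS_insert {f : Om → ℝ} (hf : Measurable f) {K : ℝ} (hb : ∀ ω, |f ω| ≤ K) {S : Finset Ix} {i : Ix} (hi : i ∉ S)
    (ω : Om) : FS f (insert i S) ω = ∫ u, FS f S (Function.update ω i u) ∂uu := by
  have hm : Measurable fun η : Om => f (mxS (insert i S) ω η) :=
    (hf.comp (meas_mxS _)).comp (measurable_const.prodMk measurable_id)
  have h1 : ∫ η : Om, f (mxS (insert i S) ω η) ∂PP =
      ∫ q, f (mxS (insert i S) ω (Function.update q.1 i q.2)) ∂(PP.prod uu) := by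
    have h2 := integral_map (μ := PP.prod uu) (φ := fun q : Om × ℝ => Function.update q.1 i q.2)
      (res_mp i).measurable.aemeasurable (f := fun η : Om => f (mxS (insert i S) ω η)) hm.aestronglyMeasurable
    rw [(res_mp i).map_eq] at h2
    exact h2
  have hm2 : Measurable fun q : Om × ℝ => f (mxS S (Function.update ω i q.2) q.1) := by
    refine (hf.comp (meas_mxS S)).comp (Measurable.prodMk ?_ measurable_fst)
    exact (Pool.Agent.Helper18.PV.measurable_upd i).comp (measurable_const.prodMk measurable_snd)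
  unfold FS
  rw [h1]
  simp only [mxS_insert hi]
  exact integral_prod_symm _ (int_bd (μ := PP.prod uu) hm2 fun q => hb _)

theorem mcd {L : Measure Om} (hL : IsProbabilityMeasure L) {S : Finset Ix} (hR : ∀ i ∈ S, Rs L i)
    {f : Om → ℝ} (hf : Measurable f) {K : ℝ} (hb : ∀ ω, |f ω| ≤ K) {c : Ix → ℝ}
    (hc : ∀ i ∈ S, ∀ ω u, |f (Function.update ω i u) - f ω| ≤ c i) {M t : ℝ} (ht : 0 ≤ t)
    (hM : ∀ ω : Om, ∫ η : Om, f (fun i => if i ∈ S then η i else ω i) ∂PP ≤ M) :
    L {ω | M + t ≤ f ω} ≤ ENNReal.ofReal (Real.exp (-(t ^ 2 / (2 * ∑ i ∈ S, c i ^ 2)))) := by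
  have key : ∀ r : ℝ, ∫ ω, Real.exp (r * f ω) ∂L ≤
      Real.exp (r ^ 2 * (∑ i ∈ S, c i ^ 2) / 2) * ∫ ω, Real.exp (r * FS f S ω) ∂L := by
    intro r
    refine Finset.induction_on' (motive := fun s => ∫ ω, Real.exp (r * f ω) ∂L ≤
      Real.exp (r ^ 2 * (∑ i ∈ s, c i ^ 2) / 2) * ∫ ω, Real.exp (r * FS f s ω) ∂L) S ?_ ?_
    · simp only [FS_empty, Finset.sum_empty, mul_zero, zero_div, Real.exp_zero, one_mul]
      exact le_rfl
    · intro i s hi hs his ih
      refine ih.trans ?_
      have h1 := stepM hL (hR i hi) (FS_meas hf s) (FS_bd hb s) (c := c i) (r := r) (fun ω u => by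
        have e : FS f s (Function.update ω i u) - FS f s ω =
            ∫ η : Om, (f (mxS s (Function.update ω i u) η) - f (mxS s ω η)) ∂PP := by
          unfold FS
          rw [integral_sub]
          · exact int_bd ((hf.comp (meas_mxS s)).comp (measurable_const.prodMk measurable_id)) fun η => hb _
          · exact int_bd ((hf.comp (meas_mxS s)).comp (measurable_const.prodMk measurable_id)) fun η => hb _
        rw [e]
        refine abs_int_le fun η => ?_
        rw [mxS_update his]
        exact hc i hi _ u)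
      have h2 : ∀ ω, ∫ u, FS f s (Function.update ω i u) ∂uu = FS f (insert i s) ω := fun ω =>
        (FS_insert hf hb his ω).symm
      simp only [h2] at h1
      calc Real.exp (r ^ 2 * (∑ i ∈ s, c i ^ 2) / 2) * ∫ ω, Real.exp (r * FS f s ω) ∂L
          ≤ Real.exp (r ^ 2 * (∑ i ∈ s, c i ^ 2) / 2) *
            (Real.exp (r ^ 2 * c i ^ 2 / 2) * ∫ ω, Real.exp (r * FS f (insert i s) ω) ∂L) :=
            mul_le_mul_of_nonneg_left h1 (Real.exp_pos _).le
        _ = _ := by
            rw [← mul_assoc, ← Real.exp_add, Finset.sum_insert his]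
            congr 2
            ring
  obtain ⟨V, hV⟩ : ∃ V : ℝ, V = ∑ i ∈ S, c i ^ 2 := ⟨_, rfl⟩
  rw [← hV]
  have hV0 : 0 ≤ V := by rw [hV]; exact Finset.sum_nonneg fun i _ => sq_nonneg _
  rcases hV0.eq_or_lt with h0 | h0
  · rw [← h0, mul_zero, div_zero, neg_zero, Real.exp_zero, ENNReal.ofReal_one]
    exact prob_le_one
  obtain ⟨r, hr⟩ : ∃ r : ℝ, r = t / V := ⟨_, rfl⟩
  have hr0 : 0 ≤ r := by rw [hr]; positivity
  have h1 := ProbabilityTheory.measure_ge_le_exp_mul_mgf (μ := L) (X := f) (M + t) hr0 (int_exp hf hb r)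
  have h2 := key r
  rw [← hV] at h2
  have h3 : ∫ ω, Real.exp (r * FS f S ω) ∂L ≤ Real.exp (r * M) := by
    have h4 := integral_mono (μ := L) (int_exp (FS_meas hf S) (FS_bd hb S) r) (integrable_const (Real.exp (r * M)))
      fun ω => Real.exp_le_exp.2 (mul_le_mul_of_nonneg_left (hM ω) hr0)
    rw [integral_const, probReal_univ, one_smul] at h4
    exact h4
  have h5 : L.real {ω | M + t ≤ f ω} ≤ Real.exp (-(t ^ 2 / (2 * V))) := by
    refine h1.trans ?_
    calc Real.exp (-r * (M + t)) * ProbabilityTheory.mgf f L r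
        ≤ Real.exp (-r * (M + t)) * (Real.exp (r ^ 2 * V / 2) * Real.exp (r * M)) := by
          refine mul_le_mul_of_nonneg_left ?_ (Real.exp_pos _).le
          exact h2.trans (mul_le_mul_of_nonneg_left h3 (Real.exp_pos _).le)
      _ = Real.exp (-(t ^ 2 / (2 * V))) := by
          rw [← Real.exp_add, ← Real.exp_add]
          congr 1
          rw [hr]
          field_simp
          ring
  rw [← ENNReal.ofReal_toReal (measure_ne_top L {ω | M + t ≤ f ω})]
  exact ENNReal.ofReal_le_ofReal h5

end Pool.Agent.Helper18.AN
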