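import Pool.Agent.Helper72.AP.Defs

/-! Block B4b of `Pool/Agent/Helper72/AP`: the random potential depends little on the noise of the high levels. -/

set_option autoImplicit false
open MeasureTheory Real Set
open scoped ENNReal

namespace Pool.Agent.Helper18.AN

open Pool.Agent.Helper95.PV
open Pool.Agent.Helper18.FD (NN rr pr cl uu Bump k1 k2 CB NN_pos NN_ge pr_sum abs_cl_le bump_cb)

private theorem cb_bdT {f : ℝ → ℝ} (hf : CB f) : ∃ B : ℝ, 0 ≤ B ∧ ∀ t, |f t| ≤ B := by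
  obtain ⟨C, hC⟩ := (isCompact_Icc (a := (-1 : ℝ)) (b := 1)).exists_bound_of_continuousOn hf.cont.continuousOn
  refine ⟨max C 0, le_max_right _ _, fun t => ?_⟩
  rcases le_total 1 |t| with h | h
  · rw [hf.zero t h, abs_zero]
    exact le_max_right _ _
  · exact (hC t (abs_le.1 h)).trans (le_max_left _ _)

private theorem NN_fourT (l : ℕ) : 4 ≤ NN l := by
  unfold NN
  calc 4 ≤ 2 ^ 3 := by norm_num
    _ ≤ 2 ^ (l + 3) := Nat.pow_le_pow_right (by norm_num) (by omega)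

private theorem NN_rpowT {e : ℝ} (l : ℕ) : (NN l : ℝ) ^ (-e) = ((2 : ℝ) ^ (-e)) ^ (l + 3) := by
  unfold NN
  rw [Nat.cast_pow, Nat.cast_ofNat, ← Real.rpow_natCast, ← Real.rpow_natCast, ← Real.rpow_mul (by norm_num),
    ← Real.rpow_mul (by norm_num), mul_comm]

private theorem lv_bdT {g₁ g₂ : ℝ → ℝ} (h1 : CB g₁) (h2 : CB g₂) {B₁ B₂ : ℝ}
    (hB1 : ∀ t, |g₁ t| ≤ B₁) (hB2 : ∀ t, |g₂ t| ≤ B₂) (ω : Om) (l : ℕ) (x : ℝ) :
    |lv g₁ g₂ ω l x| ≤ 2 * B₁ + 2 * B₂ := by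
  have s2 := pr_sum (NN_fourT l) hB1 h1.zero x
  have s3 := pr_sum (NN_fourT l) hB2 h2.zero x
  unfold lv
  calc _ ≤ ∑ i ∈ Finset.range (NN l), (|pr (NN l) g₁ (x - i / NN l)| + |pr (NN l) g₂ (x - i / NN l)|) := by
        refine (Finset.abs_sum_le_sum_abs _ _).trans (Finset.sum_le_sum fun c _ => ?_)
        refine (abs_add_le _ _).trans (add_le_add ?_ ?_)
        · rw [abs_mul]
          exact mul_le_of_le_one_left (abs_nonneg _) (abs_cl_le _)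
        · rw [abs_mul]
          exact mul_le_of_le_one_left (abs_nonneg _) (abs_cl_le _)
    _ ≤ _ := by
        rw [Finset.sum_add_distrib]
        exact add_le_add s2 s3

private theorem lv_congrT (g₁ g₂ : ℝ → ℝ) {ω ω' : Om} {l : ℕ} (h : ∀ i < NN l, ∀ b, ω (l, i, b) = ω' (l, i, b)) (x : ℝ) :
    lv g₁ g₂ ω l x = lv g₁ g₂ ω' l x := by
  unfold lv
  refine Finset.sum_congr rfl fun i hi => ?_
  rw [h i (Finset.mem_range.1 hi) false, h i (Finset.mem_range.1 hi) true]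

private theorem truncT {g₁ g₂ : ℝ → ℝ} (h1 : CB g₁) (h2 : CB g₂) {e : ℝ} (he : 0 < e) : ∃ C : ℝ, 0 ≤ C ∧
    ∀ (ω ω' : Om) (hi : ℕ), (∀ i : Ix, i.1 < hi → i.2.1 < NN i.1 → ω i = ω' i) → ∀ x,
      |fd g₁ g₂ e ω x - fd g₁ g₂ e ω' x| ≤ C * (NN hi : ℝ) ^ (-e) := by
  obtain ⟨B₁, hB10, hB1⟩ := cb_bdT h1
  obtain ⟨B₂, hB20, hB2⟩ := cb_bdT h2
  obtain ⟨q, hq⟩ : ∃ q : ℝ, q = (2 : ℝ) ^ (-e) := ⟨_, rfl⟩
  have hq0 : 0 < q := by rw [hq]; positivity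
  have hq1 : q < 1 := by rw [hq]; exact Real.rpow_lt_one_of_one_lt_of_neg (by norm_num) (by linarith)
  obtain ⟨D, hD⟩ : ∃ D : ℝ, D = 2 * (2 * B₁ + 2 * B₂) := ⟨_, rfl⟩
  have hD0 : 0 ≤ D := by rw [hD]; positivity
  have hsum : ∀ ω : Om, ∀ x, Summable fun l : ℕ => (NN l : ℝ) ^ (-e) * lv g₁ g₂ ω l x := by
    intro ω x
    refine Summable.of_norm_bounded (g := fun l => (NN l : ℝ) ^ (-e) * (2 * B₁ + 2 * B₂)) ?_ fun l => ?_
    · refine Summable.mul_right _ ?_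
      simp only [NN_rpowT, ← hq]
      exact (summable_nat_add_iff 3).2 (summable_geometric_of_lt_one hq0.le hq1)
    · rw [norm_mul, Real.norm_eq_abs, Real.norm_eq_abs, abs_of_nonneg (by positivity)]
      exact mul_le_mul_of_nonneg_left (lv_bdT h1 h2 hB1 hB2 ω l x) (by positivity)
  refine ⟨D * (1 - q)⁻¹, by have : 0 < 1 - q := by linarith
                            positivity, fun ω ω' hi h x => ?_⟩
  have e1 : fd g₁ g₂ e ω x - fd g₁ g₂ e ω' x =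
      ∑' l : ℕ, ((NN l : ℝ) ^ (-e) * lv g₁ g₂ ω l x - (NN l : ℝ) ^ (-e) * lv g₁ g₂ ω' l x) := by
    unfold fd
    exact ((hsum ω x).tsum_sub (hsum ω' x)).symm
  have hs2 := (hsum ω x).sub (hsum ω' x)
  have e2 := hs2.sum_add_tsum_nat_add hi
  have e3 : ∑ l ∈ Finset.range hi, ((NN l : ℝ) ^ (-e) * lv g₁ g₂ ω l x - (NN l : ℝ) ^ (-e) * lv g₁ g₂ ω' l x) = 0 := by
    refine Finset.sum_eq_zero fun l hl => ?_
    rw [lv_congrT g₁ g₂ (fun i hi' b => h (l, i, b) (Finset.mem_range.1 hl) hi') x, sub_self]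
  rw [e1, ← e2, e3, zero_add, ← Real.norm_eq_abs]
  have hgeo : HasSum (fun k : ℕ => ((NN hi : ℝ) ^ (-e) * D) * q ^ k) (((NN hi : ℝ) ^ (-e) * D) * (1 - q)⁻¹) :=
    (hasSum_geometric_of_lt_one hq0.le hq1).mul_left _
  refine (tsum_of_norm_bounded hgeo fun k => ?_).trans (le_of_eq ?_)
  · rw [← mul_sub, norm_mul, Real.norm_eq_abs, Real.norm_eq_abs, abs_of_nonneg (by positivity)]
    have e4 : (NN (k + hi) : ℝ) ^ (-e) = (NN hi : ℝ) ^ (-e) * q ^ k := by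
      rw [NN_rpowT, NN_rpowT, ← hq, ← pow_add]
      congr 1
      ring
    have e5 : |lv g₁ g₂ ω (k + hi) x - lv g₁ g₂ ω' (k + hi) x| ≤ D := by
      refine (abs_sub _ _).trans ?_
      rw [hD, two_mul]
      exact add_le_add (lv_bdT h1 h2 hB1 hB2 ω _ x) (lv_bdT h1 h2 hB1 hB2 ω' _ x)
    rw [e4]
    calc (NN hi : ℝ) ^ (-e) * q ^ k * |lv g₁ g₂ ω (k + hi) x - lv g₁ g₂ ω' (k + hi) x|
        ≤ (NN hi : ℝ) ^ (-e) * q ^ k * D := mul_le_mul_of_nonneg_left e5 (by positivity)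
      _ = _ := by ring
  · ring

theorem trunc {χ : ℝ → ℝ} (hχ : Bump χ) {s : ℝ} (hs : 0 < s) (hs1 : s < 1) : ∃ C : ℝ, 1 ≤ C ∧
    ∀ (ω ω' : Om) (hi : ℕ), (∀ i : Ix, i.1 < hi → i.2.1 < NN i.1 → ω i = ω' i) → ∀ x,
      |h1 χ s ω x - h1 χ s ω' x| ≤ C * (NN hi : ℝ) ^ (-s) ∧ |h2 χ s ω x - h2 χ s ω' x| ≤ C * (NN hi : ℝ) ^ (-s) := by
  obtain ⟨-, c1, c2, -, c3, c4, -, c5, c6⟩ := bump_cb hχ
  obtain ⟨C1, hC1, H1⟩ := truncT c3 c4 (e := 1 + s) (by linarith)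
  obtain ⟨C2, hC2, H2⟩ := truncT c5 c6 (e := s) hs
  refine ⟨1 + C1 + C2, by linarith, fun ω ω' hi h x => ?_⟩
  have hN : (1 : ℝ) ≤ NN hi := by linarith [NN_ge hi]
  have hp : 0 < (NN hi : ℝ) ^ (-s) := Real.rpow_pos_of_pos (by linarith) _
  constructor
  · refine (H1 ω ω' hi h x).trans ?_
    have h2 : (NN hi : ℝ) ^ (-(1 + s)) ≤ (NN hi : ℝ) ^ (-s) := Real.rpow_le_rpow_of_exponent_le hN (by linarith)
    calc C1 * (NN hi : ℝ) ^ (-(1 + s)) ≤ C1 * (NN hi : ℝ) ^ (-s) := mul_le_mul_of_nonneg_left h2 hC1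
      _ ≤ (1 + C1 + C2) * (NN hi : ℝ) ^ (-s) := mul_le_mul_of_nonneg_right (by linarith) hp.le
  · refine (H2 ω ω' hi h x).trans ?_
    exact mul_le_mul_of_nonneg_right (by linarith) hp.le

end Pool.Agent.Helper18.AN
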