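import Pool.Agent.Helper72.AP.Defs

/-! Blocks B4a, B4c of `Pool/Agent/Helper72/AP`: influence of one coordinate of the noise on the mean growth and on the measure of `{|V''| < δ}`. A coordinate of level `l` acts only in a cell of length `2 / NN l`; the orbit of length `m` meets the cell with probability at most `2 m / NN l`. -/

set_option autoImplicit false
open MeasureTheory Real Set
open scoped ENNReal

namespace Pool.Agent.Helper18.AN

open Pool.Agent.Helper95.PV
open Pool.Agent.Helper18.UC (T2 rep toT nn)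
open Pool.Agent.Helper18.FD (NN rr pr cl uu Bump k1 k2 NN_pos NN_ge)

variable {d : Dat}

/-- one coordinate as a change of the cell -/
theorem upd_one (l c : ℕ) (b : Bool) (u : ℝ) (ω : Om) :
    ∃ u' v' : ℝ, Function.update ω (l, c, b) u = upd l c u' v' ω := by
  cases b with
  | false => exact ⟨u, ω (l, c, true), update_eq l c u ω⟩
  | true =>
    refine ⟨ω (l, c, false), u, ?_⟩
    unfold upd
    rw [Function.update_eq_self]

private theorem lv_far (g₁ g₂ : ℝ → ℝ) {l c : ℕ} (hc : NN l ≤ c) (b : Bool) (u : ℝ) (ω : Om) (l' : ℕ) (x : ℝ) :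
    lv g₁ g₂ (Function.update ω (l, c, b) u) l' x = lv g₁ g₂ ω l' x := by
  unfold lv
  refine Finset.sum_congr rfl fun i hi => ?_
  have hi' := Finset.mem_range.1 hi
  have h : ∀ b' : Bool, Function.update ω (l, c, b) u (l', i, b') = ω (l', i, b') := by
    intro b'
    rw [Function.update_of_ne]
    intro h
    have h1 : l' = l := congrArg (fun i : Ix => i.1) h
    have h2 : i = c := congrArg (fun i : Ix => i.2.1) h
    subst h1 h2
    omega
  rw [h false, h true]

theorem h_far (χ : ℝ → ℝ) (s : ℝ) {l c : ℕ} (hc : NN l ≤ c) (b : Bool) (u : ℝ) (ω : Om) (x : ℝ) :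
    h1 χ s (Function.update ω (l, c, b) u) x = h1 χ s ω x ∧
      h2 χ s (Function.update ω (l, c, b) u) x = h2 χ s ω x := by
  constructor
  · unfold h1 fd
    exact tsum_congr fun l' => by rw [lv_far _ _ hc]
  · unfold h2 fd
    exact tsum_congr fun l' => by rw [lv_far _ _ hc]

theorem vol_cell (l c : ℕ) : volume {x : UnitAddCircle | ¬ out l c x} ≤ ENNReal.ofReal (2 / NN l) := by
  have hN := NN_pos l
  have h1 : {x : UnitAddCircle | ¬ out l c x} ⊆
      {x | dist x (((c : ℝ) / NN l : ℝ) : UnitAddCircle) < 1 / NN l} := by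
    intro x hx
    have hx' : ¬ out l c x := hx
    unfold out tc at hx'
    rw [not_le, abs_mul, abs_of_pos hN] at hx'
    have h2 := dist_coe (rp x) ((c : ℝ) / NN l)
    rw [coe_rp] at h2
    show dist x _ < _
    rw [h2, lt_div_iff₀ hN]
    linarith
  refine (measure_mono h1).trans ((vol_ball _ _).trans (le_of_eq ?_))
  congr 1
  ring

private theorem meas_out (l c : ℕ) : MeasurableSet {x : UnitAddCircle | ¬ out l c x} :=
  (measurableSet_le measurable_const (meas_tc l c).abs).compl

/-- the visit of a cell -/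
theorem vol_visit (hd : d.Ok) (ω : Om) (l c j : ℕ) :
    volume {z : T2 | ¬ out l c (px d j (ω, z))} ≤ ENNReal.ofReal (2 / NN l) := by
  have hp : IsProbabilityMeasure (volume : Measure UnitAddCircle) := by
    constructor
    rw [UnitAddCircle.measure_univ]
  have h0 : MeasurePreserving (Prod.fst : T2 → UnitAddCircle) volume volume :=
    measurePreserving_fst (μ := (volume : Measure UnitAddCircle)) (ν := (volume : Measure UnitAddCircle))
  have h1 := h0.comp ((Tw_mp hd ω).iterate j)
  have e1 : {z : T2 | ¬ out l c (px d j (ω, z))} = (Prod.fst ∘ (Tw d ω)^[j]) ⁻¹' {x | ¬ out l c x} := by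
    ext z
    show (¬ out l c (((sk d)^[j] (ω, z)).2.1)) ↔ ¬ out l c (((Tw d ω)^[j] z).1)
    rw [sk_iter]
  rw [e1, h1.measure_preimage (meas_out l c).nullMeasurableSet]
  exact vol_cell l c

private theorem ms_un (hd : d.Ok) (ω : Om) (n : ℕ) :
    Measurable fun z : T2 => Real.log (nn (Mm d n (ω, z))) :=
  ((meas_nn hd n).comp measurable_prodMk_left).log

private theorem in_un (hd : d.Ok) (ω : Om) (n : ℕ) :
    Integrable (fun z : T2 => Real.log (nn (Mm d n (ω, z)))) volume :=
  Integrable.of_bound (ms_un hd ω n).aestronglyMeasurable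
    (Real.log 2 + n * (3 * Real.log |d.a|)) (Filter.Eventually.of_forall fun z => by
      obtain ⟨h1, h2⟩ := log_nn_bd hd n (ω, z)
      rw [Real.norm_eq_abs, abs_of_nonneg h1]
      exact h2)

theorem un_upd (hd : d.Ok) (ω : Om) (l c : ℕ) (b : Bool) (u : ℝ) {m : ℕ} (hm : 1 ≤ m) :
    |un d (Function.update ω (l, c, b) u) m - un d ω m| ≤ 8 * (m : ℝ) ^ 2 * Real.log |d.a| / NN l := by
  have hN := NN_pos l
  have ha := hd.ha
  have hla : Real.log 2 ≤ Real.log |d.a| := Real.log_le_log (by norm_num) (by linarith)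
  have hla0 : 0 < Real.log |d.a| := lt_of_lt_of_le (Real.log_pos (by norm_num)) hla
  have hm1 : (1 : ℝ) ≤ m := by exact_mod_cast hm
  obtain ⟨ω', hω'⟩ : ∃ ω', ω' = Function.update ω (l, c, b) u := ⟨_, rfl⟩
  rw [← hω']
  rcases le_or_gt (NN l) c with hc | hc
  · have h1 : d.p1 ω' = d.p1 ω ∧ d.p2 ω' = d.p2 ω := by
      constructor
      · funext x
        unfold Dat.p1
        rw [hω', (h_far d.χ d.s hc b u ω x).1]
      · funext x
        unfold Dat.p2
        rw [hω', (h_far d.χ d.s hc b u ω x).2]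
    have h2 : Tw d ω' = Tw d ω := by
      unfold Tw cc
      rw [h1.1]
    have h3 : va d ω' = va d ω := by
      unfold va
      rw [h1.2]
    have h4 : ∀ z, Mm d m (ω', z) = Mm d m (ω, z) := by
      intro z
      refine Mm_congr fun j _ => ?_
      rw [sk_iter, sk_iter, h2]
      unfold vv
      rw [h3]
    have h5 : un d ω' m = un d ω m := by
      unfold un
      simp only [h4]
    rw [h5, sub_self, abs_zero]
    positivity
  · obtain ⟨u', v', huv⟩ := upd_one l c b u ω
    rw [← hω'] at huv
    obtain ⟨Z, hZ⟩ : ∃ Z : Set T2, Z = ⋃ j ∈ Finset.range m, {z : T2 | ¬ out l c (px d j (ω, z))} := ⟨_, rfl⟩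
    have hZm : MeasurableSet Z := by
      rw [hZ]
      refine Finset.measurableSet_biUnion _ fun j _ => ?_
      exact ((meas_px hd j).comp measurable_prodMk_left) (meas_out l c)
    have hZv : volume Z ≤ ENNReal.ofReal (m * (2 / NN l)) := by
      calc volume Z ≤ ∑ j ∈ Finset.range m, volume {z : T2 | ¬ out l c (px d j (ω, z))} := by
            rw [hZ]
            exact measure_biUnion_finset_le _ _
        _ ≤ ∑ _j ∈ Finset.range m, ENNReal.ofReal (2 / NN l) :=
            Finset.sum_le_sum fun j _ => vol_visit hd ω l c j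
        _ = ENNReal.ofReal (m * (2 / NN l)) := by
            rw [Finset.sum_const, Finset.card_range, nsmul_eq_mul, ENNReal.ofReal_mul (Nat.cast_nonneg m),
              ENNReal.ofReal_natCast]
    have hpt : ∀ z : T2, |Real.log (nn (Mm d m (ω', z))) - Real.log (nn (Mm d m (ω, z)))| ≤
        Z.indicator (fun _ => 4 * (m : ℝ) * Real.log |d.a|) z := by
      intro z
      by_cases hz : z ∈ Z
      · rw [indicator_of_mem hz]
        obtain ⟨a1, a2⟩ := log_nn_bd hd m (ω', z)
        obtain ⟨b1, b2⟩ := log_nn_bd hd m (ω, z)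
        have h6 : Real.log 2 + m * (3 * Real.log |d.a|) ≤ 4 * (m : ℝ) * Real.log |d.a| := by nlinarith
        rw [abs_le]
        constructor <;> linarith
      · rw [indicator_of_notMem hz]
        have h6 : ∀ j < m, out l c (px d j (ω, z)) := by
          intro j hj
          by_contra h7
          apply hz
          rw [hZ]
          simp only [mem_iUnion]
          exact ⟨j, Finset.mem_range.2 hj, h7⟩
        have h7 := (iter_out hd hc u' v' h6).2.2
        rw [← huv] at h7
        rw [Mm_congr h7, sub_self, abs_zero]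
    have hint := (in_un hd ω' m).sub (in_un hd ω m)
    have h8 : un d ω' m - un d ω m =
        ∫ z : T2, (Real.log (nn (Mm d m (ω', z))) - Real.log (nn (Mm d m (ω, z)))) := by
      unfold un
      rw [integral_sub (in_un hd ω' m) (in_un hd ω m)]
    have hI : Integrable (Z.indicator fun _ : T2 => 4 * (m : ℝ) * Real.log |d.a|) volume :=
      (integrable_const _).indicator hZm
    rw [h8]
    calc |∫ z : T2, (Real.log (nn (Mm d m (ω', z))) - Real.log (nn (Mm d m (ω, z))))|
        ≤ ∫ z : T2, |Real.log (nn (Mm d m (ω', z))) - Real.log (nn (Mm d m (ω, z)))| := abs_integral_le_integral_abs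
      _ ≤ ∫ z : T2, Z.indicator (fun _ => 4 * (m : ℝ) * Real.log |d.a|) z := integral_mono hint.abs hI hpt
      _ = volume.real Z * (4 * (m : ℝ) * Real.log |d.a|) := by
          rw [integral_indicator_const _ hZm, smul_eq_mul]
      _ ≤ (m * (2 / NN l)) * (4 * (m : ℝ) * Real.log |d.a|) := by
          refine mul_le_mul_of_nonneg_right ?_ (by positivity)
          exact ENNReal.toReal_le_of_le_ofReal (by positivity) hZv
      _ = 8 * (m : ℝ) ^ 2 * Real.log |d.a| / NN l := by ring

theorem vol_upd {χ : ℝ → ℝ} (hχ : Bump χ) {s : ℝ} (hs : 0 < s) (hs1 : s < 1) {g : ℝ → ℝ} (hg : Measurable g)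
    (κ δ : ℝ) (ω : Om) (l c : ℕ) (b : Bool) (u : ℝ) :
    |(volume.restrict (Ico (0 : ℝ) 1)).real {x | |g x + κ * h2 χ s (Function.update ω (l, c, b) u) x| < δ} -
      (volume.restrict (Ico (0 : ℝ) 1)).real {x | |g x + κ * h2 χ s ω x| < δ}| ≤ 2 / NN l := by
  have hN := NN_pos l
  obtain ⟨ω', hω'⟩ : ∃ ω', ω' = Function.update ω (l, c, b) u := ⟨_, rfl⟩
  rw [← hω']
  rcases le_or_gt (NN l) c with hc | hc
  · have h1 : ∀ x, h2 χ s ω' x = h2 χ s ω x := fun x => by rw [hω']; exact (h_far χ s hc b u ω x).2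
    simp only [h1, sub_self, abs_zero]
    positivity
  · obtain ⟨u', v', huv⟩ := upd_one l c b u ω
    rw [← hω'] at huv
    obtain ⟨Z, hZ⟩ : ∃ Z : Set ℝ, Z = {x : ℝ | ¬ 1 ≤ |(NN l : ℝ) * rr (x - c / NN l)|} := ⟨_, rfl⟩
    have hrr : Measurable rr := by
      have : rr = fun x : ℝ => x - ((⌊x + 1 / 2⌋ : ℤ) : ℝ) := by
        funext x
        unfold rr
        rw [round_eq]
      rw [this]
      exact measurable_id.sub ((measurable_of_countable _).comp
        (Int.measurable_floor.comp (measurable_id.add_const _)))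
    have hZm : MeasurableSet Z := by
      rw [hZ]
      exact (measurableSet_le measurable_const (((hrr.comp (measurable_id.sub_const _)).const_mul _).abs)).compl
    have hZv : (volume.restrict (Ico (0 : ℝ) 1)) Z ≤ ENNReal.ofReal (2 / NN l) := by
      rw [← law_rp, Measure.map_apply meas_rp hZm, hZ]
      exact vol_cell l c
    have hZr : (volume.restrict (Ico (0 : ℝ) 1)).real Z ≤ 2 / NN l :=
      ENNReal.toReal_le_of_le_ofReal (by positivity) hZv
    have hsub : ∀ ω₁ ω₂ : Om, (∀ x ∉ Z, h2 χ s ω₁ x = h2 χ s ω₂ x) →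
        (volume.restrict (Ico (0 : ℝ) 1)).real {x | |g x + κ * h2 χ s ω₁ x| < δ} ≤
        (volume.restrict (Ico (0 : ℝ) 1)).real {x | |g x + κ * h2 χ s ω₂ x| < δ} + 2 / NN l := by
      intro ω₁ ω₂ h
      have h5 : {x | |g x + κ * h2 χ s ω₁ x| < δ} ⊆ {x | |g x + κ * h2 χ s ω₂ x| < δ} ∪ Z := by
        intro x hx
        by_cases hz : x ∈ Z
        · exact Or.inr hz
        · left
          show |g x + κ * h2 χ s ω₂ x| < δ
          rw [← h x hz]
          exact hx
      calc (volume.restrict (Ico (0 : ℝ) 1)).real {x | |g x + κ * h2 χ s ω₁ x| < δ}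
          ≤ (volume.restrict (Ico (0 : ℝ) 1)).real ({x | |g x + κ * h2 χ s ω₂ x| < δ} ∪ Z) :=
            measureReal_mono h5
        _ ≤ (volume.restrict (Ico (0 : ℝ) 1)).real {x | |g x + κ * h2 χ s ω₂ x| < δ} +
            (volume.restrict (Ico (0 : ℝ) 1)).real Z := measureReal_union_le _ _
        _ ≤ _ := by linarith
    have hoff : ∀ x ∉ Z, h2 χ s ω' x = h2 χ s ω x := by
      intro x hx
      rw [huv]
      refine (h_out hχ hs hc u' v' ω ?_).2
      rw [hZ] at hx
      by_contra h6
      exact hx h6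
    have a1 := hsub ω' ω hoff
    have a2 := hsub ω ω' fun x hx => (hoff x hx).symm
    rw [abs_le]
    constructor <;> linarith

end Pool.Agent.Helper18.AN
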